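import Pool.Agent.H83.Sa4

namespace Pool.Agent.Results.MP_76ae7e_lc.NotAuto

open FirstOrder FirstOrder.Language Pool.Agent.H83.Sa

/-- A complete decidable uncountably categorical theory whose prime model is strongly
constructivizable and strongly autostable, with a countable nonsaturated model having two
strong constructivizations that are not autoequivalent. -/
theorem result : ∃ T : L.Theory, T.IsComplete ∧ (∃ M : T.ModelType.{0, 0, 0}, Infinite M) ∧
    UncCat T ∧ DecTheory T ∧
    (∃ A : T.ModelType.{0, 0, 0}, IsPrime T A ∧ (∃ ν : ℕ → A, StrongCon ν) ∧ StrAuto A) ∧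
    ∃ B : T.ModelType.{0, 0, 0}, Countable B ∧ ¬ Saturated B ∧
      ∃ ν μ : ℕ → B, StrongCon ν ∧ StrongCon μ ∧ ¬ AutoEq ν μ := by
  haveI := model_Mo (P := ℕ) Nat.succ Nat.succ_injective
  refine ⟨L.completeTheory M0, completeTheory.isComplete L M0,
    ⟨Theory.ModelType.of _ M0, inferInstanceAs (Infinite (ℕ × ℕ × Bool))⟩, uncCat, decT,
    ⟨Theory.ModelType.of _ M0, ⟨inferInstanceAs (Countable (ℕ × ℕ × Bool)), fun N => ?_⟩,
      ⟨nu, strong_nu id Primrec.id (fun _ => Nat.le_succ _)⟩, strAuto⟩,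
    Theory.ModelType.of _ M1, inferInstanceAs (Countable (ℕ × ℕ × Bool)), not_sat,
    nu, tw ∘ nu, strong_nu Nat.succ Primrec.succ (fun _ => le_rfl), strong_mu, not_autoEq⟩
  obtain ⟨P, c, hc, ⟨e⟩⟩ := struct (equiv_of_model N)
  exact ⟨e.symm.toElementaryEmbedding.comp (elem0 c hc)⟩

end Pool.Agent.Results.MP_76ae7e_lc.NotAuto
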